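import Mathlib
import Pool.Agent.Y336.PF.Main

set_option autoImplicit false

namespace Pool.Agent.Results.MP_86f7a7_co.SuperpolynomialLoss

open Filter Pool.Agent.Y336.PF H139R2.GP
open scoped Pointwise

/-- `K ^ (c log log log K)` is at most `2 ^ (C1 n * n)`. -/
theorem rate {n : ℕ} (hn : 8 ≤ n) (hl : 200000 ≤ Nat.log 2 (Nat.log 2 n)) {K : ℝ}
    (h1 : (5 : ℝ) ^ n ≤ K) (h2 : K < 5 ^ (n + 1)) :
    K ^ (1 / 10 ^ 6 * Real.log (Real.log (Real.log K))) ≤ (2 : ℝ) ^ (C1 n * n) := by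
  have hC1 : C1 n = Nat.log 2 (Nat.log 2 n) / 20000 := rfl
  obtain ⟨l, hl'⟩ : ∃ l, l = Nat.log 2 (Nat.log 2 n) := ⟨_, rfl⟩
  rw [← hl'] at hl hC1
  obtain ⟨c, hc⟩ : ∃ c, c = C1 n := ⟨_, rfl⟩
  rw [← hc] at hC1 ⊢
  have hc1 : l ≤ 40000 * c := by omega
  have hn8 : (8 : ℝ) ≤ n := by exact_mod_cast hn
  have hK0 : 0 < K := lt_of_lt_of_le (by positivity) h1
  have hlog5 : (1 : ℝ) ≤ Real.log 5 := by
    rw [Real.le_log_iff_exp_le (by norm_num)]
    have := Real.exp_one_lt_d9
    linarith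
  have hlog5' : Real.log 5 ≤ 21 / 10 := by
    have h3 : Real.log 5 ≤ Real.log (2 ^ 3) := Real.log_le_log (by norm_num) (by norm_num)
    rw [Real.log_pow] at h3
    have := Real.log_two_lt_d9
    push_cast at h3
    nlinarith
  -- logarithm of `K`
  have hK1 : (n : ℝ) ≤ Real.log K := by
    have h3 : Real.log ((5 : ℝ) ^ n) ≤ Real.log K := Real.log_le_log (by positivity) h1
    rw [Real.log_pow] at h3
    nlinarith
  have hK2 : Real.log K ≤ 4 * n := by
    have h3 : Real.log K ≤ Real.log ((5 : ℝ) ^ (n + 1)) := Real.log_le_log hK0 h2.le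
    rw [Real.log_pow] at h3
    push_cast at h3
    nlinarith
  have hlK : 0 < Real.log K := by linarith
  have hb1 : n < 2 ^ (Nat.log 2 n + 1) := Nat.lt_pow_succ_log_self (by norm_num) n
  have hb2 : Nat.log 2 n < 2 ^ (l + 1) := by
    rw [hl']; exact Nat.lt_pow_succ_log_self (by norm_num) _
  have hb3 : 4 * n ≤ 2 ^ (2 ^ (l + 2)) := by
    have h3 : Nat.log 2 n + 3 ≤ 2 ^ (l + 2) := by
      have h4 : 2 ^ (l + 2) = 2 ^ (l + 1) + 2 ^ (l + 1) := by ring
      have h5 : l + 1 < 2 ^ (l + 1) := Nat.lt_two_pow_self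
      omega
    calc 4 * n ≤ 4 * 2 ^ (Nat.log 2 n + 1) := by omega
      _ = 2 ^ (Nat.log 2 n + 3) := by ring
      _ ≤ _ := Nat.pow_le_pow_right (by norm_num) h3
  have hb4 : Real.log K ≤ (2 : ℝ) ^ (2 ^ (l + 2)) := by
    refine hK2.trans ?_
    exact_mod_cast hb3
  have hlog2 : Real.log 2 ≤ 1 := by
    have := Real.log_two_lt_d9
    linarith
  have hlog2' : 1 / 2 ≤ Real.log 2 := by
    have := Real.log_two_gt_d9
    linarith
  have hb5 : Real.log (Real.log K) ≤ (2 : ℝ) ^ (l + 2) := by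
    have h3 := Real.log_le_log hlK hb4
    rw [Real.log_pow] at h3
    push_cast at h3
    have h4 : (0 : ℝ) ≤ 2 ^ (l + 2) := by positivity
    nlinarith
  have hllK : 1 ≤ Real.log (Real.log K) := by
    rw [Real.le_log_iff_exp_le hlK]
    have := Real.exp_one_lt_d9
    linarith
  have hb6 : Real.log (Real.log (Real.log K)) ≤ 2 * l := by
    have h3 := Real.log_le_log (by linarith) hb5
    rw [Real.log_pow] at h3
    push_cast at h3
    have h4 : (2 : ℝ) ≤ l := by
      have : 2 ≤ l := by omega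
      exact_mod_cast this
    nlinarith
  have he2 : (2 : ℝ) ^ (c * n) = Real.exp (Real.log 2 * ((c : ℝ) * n)) := by
    rw [← Real.rpow_natCast (2 : ℝ) (c * n), Real.rpow_def_of_pos (by norm_num : (0 : ℝ) < 2)]
    push_cast
    rfl
  rw [Real.rpow_def_of_pos hK0, he2]
  apply Real.exp_le_exp.2
  have hcr : (l : ℝ) ≤ 40000 * c := by exact_mod_cast hc1
  have hl0 : (0 : ℝ) ≤ l := by positivity
  have hc0 : (0 : ℝ) ≤ c := by positivity
  have hlllK : 0 ≤ Real.log (Real.log (Real.log K)) := Real.log_nonneg hllK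
  calc Real.log K * (1 / 10 ^ 6 * Real.log (Real.log (Real.log K)))
      ≤ (4 * (n : ℝ)) * (1 / 10 ^ 6 * (2 * (l : ℝ))) := by gcongr
    _ = 8 / 10 ^ 6 * ((n : ℝ) * l) := by ring
    _ ≤ 8 / 10 ^ 6 * ((n : ℝ) * (40000 * (c : ℝ))) := by gcongr
    _ = (32 / 100) * ((c : ℝ) * n) := by ring
    _ ≤ 1 / 2 * ((c : ℝ) * n) := by
        have : (0 : ℝ) ≤ (c : ℝ) * n := by positivity
        linarith
    _ ≤ Real.log 2 * ((c : ℝ) * n) := by gcongr

/-- Superpolynomial failure of Freiman-Ruzsa approximation by progressions, for every large `K`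
and without any bound on the rank.

There are `c > 0` and `K₀` such that for every real `K ≥ K₀`, say `5 ^ n ≤ K < 5 ^ (n + 1)`, there
is a subgroup `L` of `ℤ ^ n` with the following property.  Let `e` be an injective homomorphism of
`L` to any abelian group `G`, and let `A` be the image of the set of the points of `L` in the cube
`[-2 ^ (n ^ 2), 2 ^ (n ^ 2)] ^ n`.  Then `|A + A| ≤ K |A|`, but
`|A ∩ P| ≤ K ^ (-c log log log K) * max |A| |P|`
for every set `P = {a + ∑_{i ∈ S} g_i : S ⊆ ι}` of the subset sums of a finite family `(g_i)` of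
elements of `G`, and for every progression `P = {a + ∑ k_i v_i : 0 ≤ k_i < N_i}` of `G`, of any
rank `d`, proper or not. -/
theorem result : ∃ c : ℝ, 0 < c ∧ ∃ K₀ : ℝ, ∀ K : ℝ, K₀ ≤ K → ∀ n : ℕ, (5 : ℝ) ^ n ≤ K →
    K < 5 ^ (n + 1) → ∃ L : AddSubgroup (Fin n → ℤ),
    ∀ (G : Type*) [AddCommGroup G] (e : L →+ G), Function.Injective e →
    ∀ A : Set G, A = e '' {x : L | ∀ i, |(x : Fin n → ℤ) i| ≤ 2 ^ (n ^ 2)} →
      A.Finite ∧ A.Nonempty ∧ ((A + A).ncard : ℝ) ≤ K * A.ncard ∧
      (∀ (ι : Type) [Finite ι] (a : G) (g : ι → G) (P : Set G),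
        P = {x | ∃ S : Finset ι, x = a + ∑ i ∈ S, g i} →
        ((A ∩ P).ncard : ℝ) ≤ K ^ (-(c * Real.log (Real.log (Real.log K)))) *
          max (A.ncard : ℝ) P.ncard) ∧
      (∀ (d : ℕ) (a : G) (v : Fin d → G) (N : Fin d → ℕ) (P : Set G),
        P = {x | ∃ k : Fin d → ℕ, (∀ i, k i < N i) ∧ x = a + ∑ i, k i • v i} →
        ((A ∩ P).ncard : ℝ) ≤ K ^ (-(c * Real.log (Real.log (Real.log K)))) *
          max (A.ncard : ℝ) P.ncard) := by
  classical
  obtain ⟨n₀, hn₀⟩ := eventually_atTop.1 (main_n.and ((tendsto_LL.eventually_ge_atTop 200000).and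
    (eventually_ge_atTop 8)))
  refine ⟨1 / 10 ^ 6, by norm_num, 5 ^ (n₀ + 1), ?_⟩
  intro K hK n hnK hKn
  have hnn : n₀ ≤ n := by
    have h1 : (5 : ℝ) ^ (n₀ + 1) < 5 ^ (n + 1) := lt_of_le_of_lt hK hKn
    have h2 := (pow_lt_pow_iff_right₀ (by norm_num : (1 : ℝ) < 5)).1 h1
    omega
  obtain ⟨⟨L, hL, hmain⟩, hll, hn8⟩ := hn₀ n hnn
  refine ⟨L, ?_⟩
  intro G _ e he A hA
  have hAA : A = e '' (AA L) := hA
  have hAfin : A.Finite := by rw [hAA]; exact (AA_finite L).image e
  have hAne : A.Nonempty := by rw [hAA]; exact (AA_nonempty L).image e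
  have hAc : A.ncard = (AA L).ncard := by
    rw [hAA, Set.ncard_image_of_injective _ he]
  have hK0 : 0 < K := lt_of_lt_of_le (by positivity) hnK
  have hrate := rate hn8 hll hnK hKn
  have hcube : ∀ (ι : Type) [Finite ι] (a : G) (g : ι → G) (P : Set G),
        P = {x | ∃ S : Finset ι, x = a + ∑ i ∈ S, g i} →
        ((A ∩ P).ncard : ℝ) ≤ K ^ (-(1 / 10 ^ 6 * Real.log (Real.log (Real.log K)))) *
          max (A.ncard : ℝ) P.ncard := by
    intro ι _ a g P hP
    obtain ⟨_⟩ := nonempty_fintype ι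
    have hPc : P.ncard = (sums g Finset.univ).card := by
      have h1 : P = (((sums g Finset.univ).image (fun y => a + y) : Finset G) : Set G) := by
        ext x
        rw [hP, Finset.mem_coe, Finset.mem_image]
        constructor
        · rintro ⟨S, rfl⟩
          exact ⟨∑ i ∈ S, g i, (mem_sums _ _ _).2 ⟨S, Finset.subset_univ _, rfl⟩, rfl⟩
        · rintro ⟨y, hy, rfl⟩
          obtain ⟨S, _, rfl⟩ := (mem_sums _ _ _).1 hy
          exact ⟨S, rfl⟩
      rw [h1, Set.ncard_coe_finset, Finset.card_image_of_injective _ (add_right_injective _)]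
    set A' : Finset L := (AA_finite L).toFinset.filter (fun y => e y ∈ P) with hA'
    have hA'c : (A ∩ P).ncard = A'.card := by
      have h1 : A ∩ P = ((A'.image e : Finset G) : Set G) := by
        ext x
        rw [Finset.mem_coe, Finset.mem_image, hAA]
        constructor
        · rintro ⟨⟨y, hy, rfl⟩, hx⟩
          exact ⟨y, Finset.mem_filter.2 ⟨(AA_finite L).mem_toFinset.2 hy, hx⟩, rfl⟩
        · rintro ⟨y, hy, rfl⟩
          obtain ⟨h2, h3⟩ := Finset.mem_filter.1 hy
          exact ⟨⟨y, (AA_finite L).mem_toFinset.1 h2, rfl⟩, h3⟩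
      rw [h1, Set.ncard_coe_finset, Finset.card_image_of_injective _ he]
    have h := hmain G e he ι g a A' (fun s hs i => by
        have h2 := (AA_finite L).mem_toFinset.1 (Finset.mem_filter.1 hs).1
        exact h2 i) (fun s hs => by
        have h2 := (Finset.mem_filter.1 hs).2
        rw [hP] at h2
        exact h2)
    rw [hA'c, hAc, AA_ncard, hPc, Real.rpow_neg hK0.le, ← div_eq_inv_mul,
      le_div_iff₀ (Real.rpow_pos_of_pos hK0 _)]
    refine le_trans ?_ h
    gcongr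
  refine ⟨hAfin, hAne, ?_, hcube, ?_⟩
  · have h1 : A + A = e '' (AA L + AA L) := by
      rw [hAA, Set.image_add]
    rw [h1, Set.ncard_image_of_injective _ he, hAc]
    calc ((AA L + AA L).ncard : ℝ) ≤ ((5 ^ n * (AA L).ncard : ℕ) : ℝ) := by
          exact_mod_cast doubling L
      _ = (5 : ℝ) ^ n * (AA L).ncard := by push_cast; ring
      _ ≤ K * (AA L).ncard := by gcongr
  · intro d a v N P hP
    by_cases hN : ∀ i, 0 < N i
    · refine hcube (Idx N) a (fun p => v p.1) P ?_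
      rw [hP]
      ext x
      exact prog_eq a v N hN x
    · push Not at hN
      obtain ⟨i, hi⟩ := hN
      have hPe : P = ∅ := by
        rw [hP]
        ext x
        simp only [Set.mem_ofPred_eq, Set.mem_empty_iff_false, iff_false]
        rintro ⟨k, hk, _⟩
        have := hk i
        omega
      rw [hPe, Set.inter_empty, Set.ncard_empty]
      push_cast
      positivity

end Pool.Agent.Results.MP_86f7a7_co.SuperpolynomialLoss
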